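import Pool.Agent.Helper91.GU.StD

/-!
# Project GU (MP_b1e6de_al), module D5b: a polynomial with a good leading coefficient
-/

set_option autoImplicit false

namespace Pool.Agent.Helper41.GU

open Polynomial IsLocalRing
open Pool.Agent.Helper91.GU

universe u

private lemma lift_D5b {L : Type u} [CommRing L] (m : Ideal L) (J : Ideal L[X]) (c : L)
    (hc : c ∈ m * J.leadingCoeff) :
    ∃ D₀ : ℕ, ∀ D, D₀ ≤ D → ∃ w ∈ J, w ∈ m.map C ∧ w.natDegree ≤ D ∧ w.coeff D = c := by
  refine Submodule.mul_induction_on hc ?_ ?_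
  · intro μ hμ l hl
    obtain ⟨w₀, hw₀, rfl⟩ := (J.mem_leadingCoeff l).1 hl
    refine ⟨w₀.natDegree, fun D hD => ⟨C μ * w₀ * X ^ (D - w₀.natDegree), ?_, ?_, ?_, ?_⟩⟩
    · exact J.mul_mem_right _ (J.mul_mem_left _ hw₀)
    · exact Ideal.mul_mem_right _ _ (Ideal.mul_mem_right _ _ (Ideal.mem_map_of_mem _ hμ))
    · refine (natDegree_mul_le).trans ?_
      have h1 : (C μ * w₀).natDegree ≤ w₀.natDegree := natDegree_C_mul_le μ w₀
      have h2 : ((X : L[X]) ^ (D - w₀.natDegree)).natDegree ≤ D - w₀.natDegree :=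
        natDegree_X_pow_le _
      omega
    · have h3 : D = w₀.natDegree + (D - w₀.natDegree) := by omega
      have h4 : (C μ * w₀ * X ^ (D - w₀.natDegree)).coeff
          (w₀.natDegree + (D - w₀.natDegree)) = (C μ * w₀).coeff w₀.natDegree :=
        coeff_mul_X_pow _ _ _
      rw [← h3] at h4
      rw [h4, coeff_C_mul]
      rfl
  · rintro x y ⟨D₁, h₁⟩ ⟨D₂, h₂⟩
    refine ⟨max D₁ D₂, fun D hD => ?_⟩
    obtain ⟨w₁, a1, a2, a3, a4⟩ := h₁ D ((le_max_left _ _).trans hD)
    obtain ⟨w₂, b1, b2, b3, b4⟩ := h₂ D ((le_max_right _ _).trans hD)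
    refine ⟨w₁ + w₂, J.add_mem a1 b1, Ideal.add_mem _ a2 b2, ?_, ?_⟩
    · exact (natDegree_add_le _ _).trans (max_le a3 b3)
    · rw [coeff_add, a4, b4]

theorem hD5b : StD5b.{u} := by
  intro L _ _ _ r hr hm J 𝔞 d hJ
  have key : ∃ c ∈ maximalIdeal L * J.leadingCoeff, c ≠ 0 ∧
      ∀ p ∈ 𝔞.minimalPrimes, p ≠ maximalIdeal L → p.height < r → c ∉ p := by
    obtain ⟨S, hS⟩ : ∃ S : Set (Ideal L), S = {p | p ∈ 𝔞.minimalPrimes ∧
        p ≠ maximalIdeal L ∧ p.height < r} := ⟨_, rfl⟩
    have hfin : S.Finite := by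
      refine (Ideal.finite_minimalPrimes_of_isNoetherianRing L 𝔞).subset ?_
      rw [hS]
      exact fun p hp => hp.1
    have hprime : ∀ p ∈ S, p.IsPrime := by
      intro p hp
      rw [hS] at hp
      exact hp.1.1.1
    have hnot : ∀ p ∈ S, ¬ maximalIdeal L * J.leadingCoeff ≤ p := by
      intro p hp hle
      have hpp := hprime p hp
      rw [hS] at hp
      rcases hpp.mul_le.1 hle with h1 | h1
      · exact hp.2.1 ((maximalIdeal.isMaximal L).eq_of_le hpp.ne_top h1).symm
      · exact absurd (hJ p hpp h1) (not_le.2 hp.2.2)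
    by_cases hne : S.Nonempty
    · have hsub : ¬ (((maximalIdeal L * J.leadingCoeff : Ideal L) : Set L) ⊆
          ⋃ p ∈ ((hfin.toFinset : Finset (Ideal L)) : Set (Ideal L)), (p : Set L)) := by
        intro hcon
        rw [Ideal.subset_union_prime (f := fun p : Ideal L => p) ⊥ ⊥ (by
          intro p hp _ _
          exact hprime p (hfin.mem_toFinset.1 hp))] at hcon
        obtain ⟨p, hp, hle⟩ := hcon
        exact hnot p (hfin.mem_toFinset.1 hp) hle
      obtain ⟨c, hc, hcn⟩ := Set.not_subset.1 hsub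
      have hcn' : ∀ p ∈ S, c ∉ p := by
        intro p hp hcp
        apply hcn
        simp only [Set.mem_iUnion]
        exact ⟨p, by simpa using hp, hcp⟩
      refine ⟨c, hc, ?_, ?_⟩
      · rintro rfl
        obtain ⟨p, hp⟩ := hne
        exact hcn' p hp p.zero_mem
      · intro p hp h1 h2
        exact hcn' p (by rw [hS]; exact ⟨hp, h1, h2⟩)
    · have hbot : maximalIdeal L * J.leadingCoeff ≠ ⊥ := by
        intro hbot
        obtain ⟨q, hq, -⟩ := Ideal.exists_minimalPrimes_le
          (bot_le : (⊥ : Ideal L) ≤ maximalIdeal L)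
        have hqp : q.IsPrime := Ideal.minimalPrimes_isPrime hq
        have hq0 : q.height = 0 := Ideal.height_eq_zero_iff.2 hq
        have hr0 : ¬ ((r : ℕ∞) ≤ 0) := by
          intro h0
          have h1 : (r : ℕ∞) = 0 := le_antisymm h0 bot_le
          have h2 : r = 0 := by exact_mod_cast h1
          omega
        have hle : maximalIdeal L * J.leadingCoeff ≤ q := by
          rw [hbot]
          exact bot_le
        rcases hqp.mul_le.1 hle with h1 | h1
        · have hqm : maximalIdeal L = q := (maximalIdeal.isMaximal L).eq_of_le hqp.ne_top h1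
          by_cases htop : J.leadingCoeff = ⊤
          · rw [htop, Ideal.mul_top] at hbot
            exact hm hbot
          · have h2 : J.leadingCoeff ≤ q := by
              rw [← hqm]
              exact le_maximalIdeal htop
            have := hJ q hqp h2
            rw [hq0] at this
            exact hr0 this
        · have := hJ q hqp h1
          rw [hq0] at this
          exact hr0 this
      obtain ⟨c, hc, hc0⟩ := Submodule.exists_mem_ne_zero_of_ne_bot hbot
      refine ⟨c, hc, hc0, ?_⟩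
      intro p hp h1 h2
      exact absurd ⟨p, by rw [hS]; exact ⟨hp, h1, h2⟩⟩ hne
  obtain ⟨c, hc, hc0, hcp⟩ := key
  obtain ⟨D₀, hD⟩ := lift_D5b (maximalIdeal L) J c hc
  obtain ⟨w, hwJ, hwm, hwd, hwc⟩ := hD (max D₀ d) (le_max_left _ _)
  have hdeg : w.natDegree = max D₀ d := by
    refine le_antisymm hwd (le_natDegree_of_ne_zero ?_)
    rw [hwc]
    exact hc0
  have hlc : w.leadingCoeff = c := by
    rw [leadingCoeff, hdeg, hwc]
  refine ⟨w, hwJ, hwm, ?_, ?_, ?_⟩
  · rintro rfl
    rw [leadingCoeff_zero] at hlc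
    exact hc0 hlc.symm
  · rw [hdeg]
    exact le_max_right _ _
  · intro p hp h1 h2
    rw [hlc]
    exact hcp p hp h1 h2

end Pool.Agent.Helper41.GU
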