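import Pool.Agent.Helper91.GU.StF

/-!
# Project GU (MP_b1e6de_al), module F4: the support at `K` is harmless
-/

set_option autoImplicit false

namespace Pool.Agent.Helper41.GU

open Polynomial
open Pool.Agent.Helper91.GU

universe u

private lemma phi_C_F4 {L : Type u} [CommRing L] (I : Ideal L[X]) (r : L) :
    Phi I (C r) = C (Ideal.Quotient.mk I (C r)) := by
  simp [Phi]

private lemma phi_X_F4 {L : Type u} [CommRing L] (I : Ideal L[X]) :
    Phi I X = C (Ideal.Quotient.mk I X) * X := by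
  simp [Phi]

private lemma eval_map_algebraMap_one_F4 {L : Type u} [CommRing L] (I : Ideal L[X]) (p : L[X]) :
    (p.map (algebraMap L (L[X] ⧸ I))).eval 1 = algebraMap L (L[X] ⧸ I) (p.eval 1) := by
  have h := Polynomial.eval_map_apply (f := algebraMap L (L[X] ⧸ I)) (p := p) 1
  rw [map_one] at h
  exact h

private lemma dl_F4 {R : Type u} [CommRing R] {a b : R} (h : a ∣ b) (c : R) : a ∣ c * b :=
  h.mul_left c

private lemma dr_F4 {R : Type u} [CommRing R] {a b : R} (h : a ∣ b) (c : R) : a ∣ b * c :=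
  h.mul_right c

/-- a congruence class modulo `pm` which is a unit can be inverted -/
private lemma inv_F4 {A R : Type u} [CommRing A] [CommRing R] (Φ : A →+* R) (pm : R)
    (hlift : ∀ P : R, ∃ f : A, pm ∣ Φ f - P) (e : A) (P : R) (hP : pm ∣ Φ e * P - 1) :
    ∃ e' : A, pm ∣ Φ (e * e') - 1 := by
  obtain ⟨e', he'⟩ := hlift P
  refine ⟨e', ?_⟩
  have h : Φ (e * e') - 1 = Φ e * (Φ e' - P) + (Φ e * P - 1) := by
    rw [map_mul]
    ring
  rw [h]
  exact dvd_add (he'.mul_left _) hP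

private lemma mul_one_F4 {R : Type u} [CommRing R] (pm x y : R) (hx : pm ∣ x - 1)
    (hy : pm ∣ y - 1) : pm ∣ x * y - 1 := by
  have h : x * y - 1 = x * (y - 1) + (x - 1) := by ring
  rw [h]
  exact dvd_add (hy.mul_left _) hx

private lemma loc_F4 {A : Type u} [CommRing A] {r : ℕ} (f x : A) (c : Fin r → A)
    (h : x * f ∈ idl c) : algebraMap A (Localization.Away f) x ∈
      idl (mp (algebraMap A (Localization.Away f)) c) := by
  have hu : IsUnit (algebraMap A (Localization.Away f) f) :=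
    IsLocalization.Away.algebraMap_isUnit f
  have h1 : algebraMap A (Localization.Away f) (x * f) ∈
      idl (mp (algebraMap A (Localization.Away f)) c) := by
    have h2 := Ideal.mem_map_of_mem (algebraMap A (Localization.Away f)) h
    have h3 : (idl c).map (algebraMap A (Localization.Away f)) =
        idl (mp (algebraMap A (Localization.Away f)) c) := by
      unfold idl
      rw [Ideal.map_span, ← Set.range_comp]
      rfl
    rw [h3] at h2
    exact h2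
  rw [map_mul] at h1
  exact (Ideal.mul_unit_mem_iff_mem _ hu).1 h1

private lemma unit_F4 {A : Type u} [CommRing A] (f x : A) (h : x ∣ f) :
    IsUnit (algebraMap A (Localization.Away f) x) :=
  isUnit_of_dvd_unit (map_dvd _ h) (IsLocalization.Away.algebraMap_isUnit f)

theorem hF4 (hB45 : StB45.{u}) (hB7 : StB7.{u}) (_hE0 : StE0.{u}) (hF3c : StF3c.{u})
    (hF4a : StF4a.{u}) : StF4.{u} := by
  intro L _ I k₀ a s b κ g hD p G q' hG N v₀ û û₁ hv₀ hû hû₁T hû₁p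
  obtain ⟨hlift, hmem⟩ := hF3c L I k₀ a s b κ g hD p G q' hG N
  have hF4a' := hF4a L I k₀ a s b κ g hD p G q' hG N
  obtain ⟨hYK, hb, hκ, hgκ, hgJ⟩ := hD
  obtain ⟨hp1, hΦG, hGq⟩ := hG
  obtain ⟨pm, hpm⟩ : ∃ pm : (L[X] ⧸ I)[X], pm =
      (p.map (algebraMap L (L[X] ⧸ I))) ^ (s + 1).factorial := ⟨_, rfl⟩
  rw [← hpm] at hΦG hû₁p
  simp only [← hpm] at hlift hmem
  have hlift2 : ∀ P : (L[X] ⧸ I)[X], ∃ f : L[X], pm ∣ Phi I f - P := by
    intro P
    obtain ⟨f, -, hf⟩ := hlift 0 P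
    exact ⟨f, hf⟩
  -- `T ∣ 1 - pm`
  obtain ⟨W, hW⟩ : (1 - X : (L[X] ⧸ I)[X]) ∣ 1 - pm := by
    have h1 : (X - C (1 : L[X] ⧸ I)) ∣ 1 - pm := by
      rw [dvd_iff_isRoot, IsRoot, eval_sub, eval_one, hpm, eval_pow]
      have h2 : (p.map (algebraMap L (L[X] ⧸ I))).eval 1 = 1 := by
        have h3 := eval_map_algebraMap_one_F4 I p
        rw [h3, hp1, map_one]
      rw [h2, one_pow, sub_self]
    have h4 : (1 - X : (L[X] ⧸ I)[X]) = -(X - C (1 : L[X] ⧸ I)) := by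
      rw [C_1]
      ring
    rw [h4, neg_dvd]
    exact h1
  obtain ⟨u, hu⟩ : ∃ u, u = Ideal.Quotient.mk I v₀ := ⟨_, rfl⟩
  rw [← hu] at hv₀ hû hû₁T
  obtain ⟨u', hu'⟩ := hv₀.exists_right_inv
  have hCu : (C u : (L[X] ⧸ I)[X]) * C u' = 1 := by
    rw [← C_mul, hu', C_1]
  -- the element `ω`
  obtain ⟨ω, hωT, hωp⟩ := hlift 1 (C u)
  have hmemω : û - û₁ * ω ∈ idl (crow G b N) := by
    rw [hmem, map_sub, map_mul, hû, hΦG]
    constructor
    · have h : C u * (1 - (1 - X) * pm) - Phi I û₁ * Phi I ω =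
          (1 - X) * (-(C u * pm)) - (Phi I û₁ - C u) * Phi I ω - C u * (Phi I ω - 1) := by ring
      rw [h]
      exact dvd_sub (dvd_sub (dvd_mul_right _ _) (dr_F4 (R := (L[X] ⧸ I)[X]) hû₁T _))
        (dl_F4 (R := (L[X] ⧸ I)[X]) hωT _)
    · have h : C u * (1 - (1 - X) * pm) - Phi I û₁ * Phi I ω =
          pm * (-(C u * (1 - X))) - (Phi I û₁ - 1) * Phi I ω - (Phi I ω - C u) := by ring
      rw [h]
      exact dvd_sub (dvd_sub (dvd_mul_right _ _) (dr_F4 (R := (L[X] ⧸ I)[X]) hû₁p _)) hωp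
  -- inverses modulo `pm`
  have hXk : Ideal.Quotient.mk I (C (a k₀)) * Ideal.Quotient.mk I (X ^ k₀) = 1 := by
    have h := hYK k₀ le_rfl
    rw [← Ideal.Quotient.eq_zero_iff_mem, map_sub, map_one, map_mul, sub_eq_zero] at h
    exact h.symm
  have hgX : Ideal.Quotient.mk I (C g) * Ideal.Quotient.mk I (X ^ κ) = 1 := by
    have h := hgκ
    rw [← Ideal.Quotient.eq_zero_iff_mem, map_sub, map_one, map_mul, sub_eq_zero] at h
    exact h.symm
  have hk1 : Ideal.Quotient.mk I (C (a (k₀ + 1))) * Ideal.Quotient.mk I X =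
      Ideal.Quotient.mk I (C (a k₀)) := by
    have h := hYK (k₀ + 1) (Nat.le_succ _)
    rw [← Ideal.Quotient.eq_zero_iff_mem, map_sub, map_one, map_mul, sub_eq_zero, pow_succ,
      map_mul] at h
    calc Ideal.Quotient.mk I (C (a (k₀ + 1))) * Ideal.Quotient.mk I X
        = Ideal.Quotient.mk I (C (a (k₀ + 1))) * Ideal.Quotient.mk I X *
          (Ideal.Quotient.mk I (C (a k₀)) * Ideal.Quotient.mk I (X ^ k₀)) := by
            rw [hXk, mul_one]
      _ = Ideal.Quotient.mk I (C (a k₀)) * (Ideal.Quotient.mk I (C (a (k₀ + 1))) *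
          (Ideal.Quotient.mk I (X ^ k₀) * Ideal.Quotient.mk I X)) := by ring
      _ = Ideal.Quotient.mk I (C (a k₀)) := by rw [← h, mul_one]
  obtain ⟨e₁, he₁⟩ := inv_F4 (Phi I) pm hlift2 (C (a k₀)) (C (Ideal.Quotient.mk I (X ^ k₀))) (by
    rw [phi_C_F4, ← C_mul, hXk, C_1, sub_self]
    exact dvd_zero _)
  obtain ⟨e₂, he₂⟩ := inv_F4 (Phi I) pm hlift2 (C g) (C (Ideal.Quotient.mk I (X ^ κ))) (by
    rw [phi_C_F4, ← C_mul, hgX, C_1, sub_self]
    exact dvd_zero _)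
  obtain ⟨e₃, he₃⟩ := inv_F4 (Phi I) pm hlift2 X (Phi I (C g * q')) (by
    have h1 : Phi I X * Phi I (C g * q') = 1 - Phi I G := by
      rw [hGq, map_sub, map_one, map_mul, map_mul, map_mul]
      ring
    rw [h1, hΦG]
    have h2 : (1 - (1 - X) * pm - 1 : (L[X] ⧸ I)[X]) = pm * (-(1 - X)) := by ring
    rw [h2]
    exact dvd_mul_right _ _)
  obtain ⟨e₄, he₄⟩ := inv_F4 (Phi I) pm hlift2 ω (C u') (by
    have h1 : Phi I ω * C u' - 1 = (Phi I ω - C u) * C u' := by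
      rw [sub_mul, hCu]
    rw [h1]
    exact dr_F4 (R := (L[X] ⧸ I)[X]) hωp _)
  obtain ⟨e₅, he₅⟩ := inv_F4 (Phi I) pm hlift2 (C (a k₀) - C (a (k₀ + 1)) * X)
    (W * C (Ideal.Quotient.mk I (X ^ k₀))) (by
    have h1 : Phi I (C (a k₀) - C (a (k₀ + 1)) * X) =
        C (Ideal.Quotient.mk I (C (a k₀))) * (1 - X) := by
      rw [map_sub, map_mul, phi_C_F4, phi_C_F4, phi_X_F4, ← mul_assoc, ← C_mul, hk1]
      ring
    have h2 : (C (Ideal.Quotient.mk I (C (a k₀))) : (L[X] ⧸ I)[X]) *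
        C (Ideal.Quotient.mk I (X ^ k₀)) = 1 := by
      rw [← C_mul, hXk, C_1]
    have h3 : Phi I (C (a k₀) - C (a (k₀ + 1)) * X) * (W * C (Ideal.Quotient.mk I (X ^ k₀))) - 1
        = -pm := by
      rw [h1]
      calc C (Ideal.Quotient.mk I (C (a k₀))) * (1 - X) *
            (W * C (Ideal.Quotient.mk I (X ^ k₀))) - 1
          = (C (Ideal.Quotient.mk I (C (a k₀))) * C (Ideal.Quotient.mk I (X ^ k₀))) *
            ((1 - X) * W) - 1 := by ring
        _ = -pm := by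
          rw [h2, ← hW]
          ring
    rw [h3, dvd_neg])
  obtain ⟨f₀, hf₀T, hf₀p⟩ := hlift 0 1
  rw [sub_zero] at hf₀T
  -- the elements `f`, `i`
  obtain ⟨f, hf⟩ : ∃ f : L[X], f = f₀ * ((C (a k₀) * e₁) * ((C g * e₂) * ((X * e₃) *
      ((ω * e₄) * ((C (a k₀) - C (a (k₀ + 1)) * X) * e₅))))) := ⟨_, rfl⟩
  have hfT : (1 - X) ∣ Phi I f := by
    rw [hf, map_mul]
    exact dr_F4 (R := (L[X] ⧸ I)[X]) hf₀T _
  have hfp : pm ∣ Phi I f - 1 := by
    rw [hf, map_mul]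
    refine mul_one_F4 (R := (L[X] ⧸ I)[X]) _ _ _ hf₀p ?_
    rw [map_mul (Phi I) (C (a k₀) * e₁)]
    refine mul_one_F4 (R := (L[X] ⧸ I)[X]) _ _ _ he₁ ?_
    rw [map_mul (Phi I) (C g * e₂)]
    refine mul_one_F4 (R := (L[X] ⧸ I)[X]) _ _ _ he₂ ?_
    rw [map_mul (Phi I) (X * e₃)]
    refine mul_one_F4 (R := (L[X] ⧸ I)[X]) _ _ _ he₃ ?_
    rw [map_mul (Phi I) (ω * e₄)]
    exact mul_one_F4 (R := (L[X] ⧸ I)[X]) _ _ _ he₄ he₅
  have hu1 : IsUnit (algebraMap L[X] (Localization.Away f) (C (a k₀))) :=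
    unit_F4 f _ ⟨f₀ * (e₁ * ((C g * e₂) * ((X * e₃) *
      ((ω * e₄) * ((C (a k₀) - C (a (k₀ + 1)) * X) * e₅))))), by rw [hf]; ring⟩
  have hu2 : IsUnit (algebraMap L[X] (Localization.Away f) (C g)) :=
    unit_F4 f _ ⟨f₀ * ((C (a k₀) * e₁) * (e₂ * ((X * e₃) *
      ((ω * e₄) * ((C (a k₀) - C (a (k₀ + 1)) * X) * e₅))))), by rw [hf]; ring⟩
  have hu3 : IsUnit (algebraMap L[X] (Localization.Away f) X) :=
    unit_F4 f _ ⟨f₀ * ((C (a k₀) * e₁) * ((C g * e₂) * (e₃ *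
      ((ω * e₄) * ((C (a k₀) - C (a (k₀ + 1)) * X) * e₅))))), by rw [hf]; ring⟩
  have hu4 : IsUnit (algebraMap L[X] (Localization.Away f) ω) :=
    unit_F4 f _ ⟨f₀ * ((C (a k₀) * e₁) * ((C g * e₂) * ((X * e₃) *
      (e₄ * ((C (a k₀) - C (a (k₀ + 1)) * X) * e₅))))), by rw [hf]; ring⟩
  have hu5 : IsUnit (algebraMap L[X] (Localization.Away f) (C (a k₀) - C (a (k₀ + 1)) * X)) :=
    unit_F4 f _ ⟨f₀ * ((C (a k₀) * e₁) * ((C g * e₂) * ((X * e₃) *
      ((ω * e₄) * e₅)))), by rw [hf]; ring⟩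
  obtain ⟨-, hrow⟩ := hB7 L[X] L[X] (RingHom.id _)
  obtain ⟨htr, -⟩ := hB7 L[X] L[X] (RingHom.id _)
  have hone : REq (row û₁ (crow G b N)) (row (û₁ * ω) (crow G b N)) := by
    refine hB45 L[X] f (1 - f) ⟨1, 1, by ring⟩ s û₁ ω (crow G b N) ?_ hu4 ?_ ?_ ?_
    · have h1 := loc_F4 f (û₁ - 1) (crow G b N) (by
        rw [hmem, map_mul, map_sub, map_one]
        exact ⟨dl_F4 (R := (L[X] ⧸ I)[X]) hfT _, dr_F4 (R := (L[X] ⧸ I)[X]) hû₁p _⟩)
      rwa [map_sub, map_one] at h1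
    · exact loc_F4 f (1 - f) (crow G b N) (by
        rw [hmem, map_mul, map_sub, map_one]
        refine ⟨dl_F4 (R := (L[X] ⧸ I)[X]) hfT _, ?_⟩
        have h2 : pm ∣ 1 - Phi I f := by
          rw [← neg_sub, dvd_neg]
          exact hfp
        exact dr_F4 (R := (L[X] ⧸ I)[X]) h2 _)
    · have h1 := loc_F4 (1 - f) (ω - 1) (crow G b N) (by
        rw [hmem, map_mul, map_sub, map_one, map_sub, map_one]
        refine ⟨dr_F4 (R := (L[X] ⧸ I)[X]) hωT _, ?_⟩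
        have h2 : pm ∣ 1 - Phi I f := by
          rw [← neg_sub, dvd_neg]
          exact hfp
        exact dl_F4 (R := (L[X] ⧸ I)[X]) h2 _)
      rwa [map_sub, map_one] at h1
    · exact hF4a' (Localization.Away f) hu1 hu2 hu3 hu5
  have htwo : REq (row (û₁ * ω) (crow G b N)) (row û (crow G b N)) :=
    (hrow (s + 1) (û₁ * ω) û (crow G b N) (crow G b N)).1 hmemω
  exact (htr (Unit ⊕ Fin (s + 1))).2.2.1 _ _ _ hone htwo

end Pool.Agent.Helper41.GU
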